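import Pool.Agent.H97Z.SecMap

set_option autoImplicit false

open MeasureTheory Pool.Agent.H97Z.Sec
open scoped ENNReal

/-- For every `1 < p < ∞` there are a `σ`-finite measure space and a sectorial operator `A` of
angle `0` on `L_p` such that `-A` generates a positive `C₀`-semigroup, `A` has no bounded
`H^∞`-calculus, some imaginary power of `A` is unbounded, and, for `p > 2`, `A` is not
`R`-sectorial. -/
theorem Pool.Agent.Results.MP_a83649_an.ACounterexample.result
    (p : ℝ≥0∞) [Fact (1 ≤ p)] (hp1 : 1 < p) (hp : p ≠ ∞) :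
    ∃ (Ω : Type) (_ : MeasurableSpace Ω) (μ : Measure Ω) (A : Lp ℂ p μ →ₗ.[ℂ] Lp ℂ p μ),
      SigmaFinite μ ∧ IsSectorial A ∧ sectAngle A = 0 ∧ NegGeneratesPositive A (posCone p μ) ∧
      ¬ HasBoundedHinf A ∧ (∃ s : ℝ, ¬ ImPowerBounded A s) ∧ (2 < p → ¬ IsRSectorial A) := by
  obtain ⟨M, hM⟩ := exists_good hp
  obtain ⟨e, he1, he2⟩ := exists_equiv hp
  have hna := M.map_na e (hM.na hp hp1)
  refine ⟨Om, inferInstance, Measure.count, (M.map e).A, inferInstance,
    (M.map e).isSectorial, (M.map e).sectAngle_eq, ⟨(M.map e).T, (M.map e).isC0,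
    (M.map e).negGenerates, fun t _ f hf => ?_⟩,
    (M.map e).not_hinf hna,
    ⟨s0, (M.map e).not_bip hna⟩, fun h2 h => hM.not_rsect hp h2 (M.map_rsect e he1 h)⟩
  refine Measure.ae_count_iff.2 fun i => ?_
  rw [M.map_T, he2]
  have h1 := hM.pos hp (M.T_mult t) (fun a b h => Real.exp_le_exp.2 (neg_le_neg
    (mul_le_mul_of_nonneg_left (mu_mono h) (le_max_right _ _)))) (fun _ => (Real.exp_pos _).le)
    (e.symm f) (fun j => by
      have h2 := Measure.ae_count_iff.1 hf j
      have h3 := he2 (e.symm f) j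
      rw [e.apply_symm_apply] at h3
      rw [h3] at h2
      exact Complex.nonneg_iff.2 ⟨h2.1, h2.2.symm⟩) i
  exact ⟨(Complex.nonneg_iff.1 h1).1, (Complex.nonneg_iff.1 h1).2.symm⟩
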